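import Pool.Agent.helper60.DA.SpecJ

namespace Pool.Agent.helper60.DA

open Polynomial Finset Pool.Agent.helper60.DK

/-- the sum over `j` in one residue class -/
theorem JB_index {R : Type*} [CommRing R] (q c N : ℕ) (hq : c < q) (hc : 1 ≤ c)
    (hN : N = 2 * c * (q + 1)) (f : ℕ → R) (z : R) :
    ∑ j ∈ range (N + 1), f j * (if q ∣ (q - c + j) then z else 0)
      = ∑ i ∈ range (2 * c + 1), f (c + q * i) * z := by
  have h1 : ∑ j ∈ range (N + 1), f j * (if q ∣ (q - c + j) then z else 0)
      = ∑ j ∈ (range (N + 1)).filter (fun j => q ∣ (q - c + j)), f j * z := by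
    rw [sum_filter]
    refine sum_congr rfl fun j _ => ?_
    split_ifs
    · rfl
    · rw [mul_zero]
  rw [h1]
  symm
  refine sum_nbij (fun i => c + q * i) ?_ ?_ ?_ ?_
  · intro i hi
    rw [mem_range] at hi
    rw [mem_filter, mem_range]
    refine ⟨?_, ?_⟩
    · have : q * i ≤ q * (2 * c) := Nat.mul_le_mul_left q (by omega)
      subst hN
      have e : 2 * c * (q + 1) = q * (2 * c) + 2 * c := by ring
      omega
    · have e : q - c + (c + q * i) = q * (i + 1) := by
        rw [Nat.mul_succ]; omega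
      rw [e]
      exact dvd_mul_right _ _
  · intro i _ i' _ h
    have h2 : q * i = q * i' := by simpa using h
    exact Nat.eq_of_mul_eq_mul_left (by omega) h2
  · intro j hj
    have hj' := mem_filter.1 hj
    rw [mem_range] at hj'
    obtain ⟨hj1, s, hs⟩ := hj'
    have hs0 : s ≠ 0 := by
      rintro rfl
      omega
    obtain ⟨i, rfl⟩ := Nat.exists_eq_succ_of_ne_zero hs0
    refine ⟨i, ?_, ?_⟩
    · rw [mem_coe, mem_range]
      by_contra hi
      have h3 : q * (2 * c + 1) ≤ q * i := Nat.mul_le_mul_left q (by omega)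
      subst hN
      have e : 2 * c * (q + 1) = q * (2 * c) + 2 * c := by ring
      have e2 : q * (2 * c + 1) = q * (2 * c) + q := by ring
      have e3 : q * (i.succ) = q * i + q := Nat.mul_succ q i
      omega
    · have e3 : q * (i.succ) = q * i + q := Nat.mul_succ q i
      show c + q * i = j
      omega
  · intro i _
    rfl

/-- the two halves -/
theorem JB_split {R : Type*} [CommRing R] (c : ℕ) (f : ℕ → R)
    (hf : ∀ i, i < c → f (2 * c - i) = f i) :
    ∑ i ∈ range (2 * c + 1), f i = f c + 2 * ∑ i ∈ range c, f i := by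
  have e : 2 * c + 1 = (c + 1) + c := by ring
  rw [e, sum_range_add, sum_range_succ, ← sum_range_reflect (fun i => f (c + 1 + i)) c]
  have h : ∀ i ∈ range c, f (c + 1 + (c - 1 - i)) = f i := by
    intro i hi
    rw [mem_range] at hi
    rw [← hf i hi]
    congr 1
    omega
  rw [sum_congr rfl h]
  ring

theorem JB (hOM : OM_stmt) (hPS : PS_stmt) (hBN : BN_stmt) (hXI : XI_stmt) : JB_stmt := by
  intro p hp h3 c hc hch
  obtain ⟨-, -, -, -, -, -, hom⟩ := hOM p h3
  have hh2 : 2 * hh p + 1 = p := by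
    have hodd : p % 2 = 1 := Nat.odd_iff.1 (hp.out.odd_of_ne_two (by omega))
    unfold hh
    omega
  obtain ⟨q, hq⟩ : ∃ q, p = q + 1 := ⟨p - 1, by omega⟩
  have hq1 : p - 1 = q := by omega
  have hqe : q = 2 * hh p := by omega
  have hcq : c < q := by omega
  -- nonvanishing
  have hne : ∀ k : ℕ, 1 ≤ k → k ≤ 2 * c → (k : ZMod p) ≠ 0 := by
    intro k hk1 hk2 h0
    rw [ZMod.natCast_eq_zero_iff] at h0
    have := Nat.le_of_dvd (by omega) h0
    omega
  have h2ne : (2 : ZMod p) ≠ 0 := by
    have := hne 2 (by norm_num) (by omega)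
    exact_mod_cast this
  -- step 1
  have h1 : ∀ t : ZMod p, om p (1 - t) ^ (2 * c) = ∑ j ∈ range (2 * c * p + 1),
      ((-1) ^ j * (((2 * c * p).choose j : ℕ) : ZMod (p ^ 2))) * om p t ^ j := by
    intro t
    rw [hom t, ← pow_mul, mul_comm p (2 * c), sub_eq_neg_add, add_pow]
    refine sum_congr rfl fun j _ => ?_
    rw [one_pow, mul_one, neg_pow]
    ring
  have h4 : ∑ t ∈ univ.erase (0 : ZMod p), om p t ^ (p - 1 - c) * om p (1 - t) ^ (2 * c)
      = ∑ j ∈ range (2 * c * p + 1), ((-1) ^ j * (((2 * c * p).choose j : ℕ) : ZMod (p ^ 2)))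
        * (if (p - 1) ∣ (p - 1 - c + j) then ((p : ZMod (p ^ 2)) - 1) else 0) := by
    rw [sum_congr rfl fun t _ => by rw [h1 t, mul_sum], sum_comm]
    refine sum_congr rfl fun j _ => ?_
    rw [← hPS p h3 (p - 1 - c + j), mul_sum]
    refine sum_congr rfl fun t _ => ?_
    rw [pow_add]
    ring
  rw [h4, hq1, JB_index q c (2 * c * p) hcq hc (by rw [hq]) (fun j => (-1) ^ j *
    (((2 * c * p).choose j : ℕ) : ZMod (p ^ 2))) ((p : ZMod (p ^ 2)) - 1)]
  have h5 : ∀ i ∈ range (2 * c + 1), (-1) ^ (c + q * i) *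
      (((2 * c * p).choose (c + q * i) : ℕ) : ZMod (p ^ 2)) * ((p : ZMod (p ^ 2)) - 1)
      = ((-1) ^ c * ((p : ZMod (p ^ 2)) - 1)) *
        (((2 * c * p).choose (c + q * i) : ℕ) : ZMod (p ^ 2)) := by
    intro i _
    have e : (-1 : ZMod (p ^ 2)) ^ (q * i) = 1 := by
      rw [hqe, pow_mul, pow_mul]
      simp
    rw [pow_add, e]
    ring
  rw [sum_congr rfl h5, ← mul_sum, JB_split c
    (fun i => (((2 * c * p).choose (c + q * i) : ℕ) : ZMod (p ^ 2)))]
  · -- step 4
    have hcc : c + q * c = c * p := by rw [hq]; ring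
    have hb : ∀ i ∈ range c, (((2 * c * p).choose (c + q * i) : ℕ) : ZMod (p ^ 2))
        = lp p (((2 * c : ℕ) : ZMod p) * ((-1) ^ (c - i - 1) *
          (((2 * c - 1).choose i : ℕ) : ZMod p) * (((c - i : ℕ) : ZMod p))⁻¹)) := by
      intro i hi
      rw [mem_range] at hi
      have e : c + q * i = i * p + (c - i) := by
        have e1 : i * p = q * i + i := by rw [hq]; ring
        omega
      rw [e, (hBN p h3 (2 * c) i (by omega)).2 (c - i) (by omega) (by omega)]
      congr 1
      ring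
    have hlps : ∀ (s : Finset ℕ) (g : ℕ → ZMod p), ∑ i ∈ s, lp p (g i) = lp p (∑ i ∈ s, g i) := by
      intro s g
      induction s using Finset.induction_on with
      | empty => rw [sum_empty, sum_empty, lp_zero]
      | insert a s ha ih => rw [sum_insert ha, sum_insert ha, ih, lp_add]
    rw [hcc, (hBN p h3 (2 * c) c (by omega)).1, sum_congr rfl hb, hlps, ← mul_sum,
      hXI (ZMod p) c hc hne]
    have hc0 : (c : ZMod p) ≠ 0 := hne c hc (by omega)
    have e2 : (2 : ZMod (p ^ 2)) * lp p (((2 * c : ℕ) : ZMod p) * ((((2 * c).choose c : ℕ) : ZMod p)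
        * ((∑ k ∈ Finset.Ioc c (2 * c), (k : ZMod p)⁻¹) / 2 + (4 * (c : ZMod p))⁻¹)))
        = (((2 * c).choose c : ℕ) : ZMod (p ^ 2)) *
          (lp p (2 * (c : ZMod p) * ∑ k ∈ Finset.Ioc c (2 * c), (k : ZMod p)⁻¹) + p) := by
      have e3 : (p : ZMod (p ^ 2)) = lp p 1 := lp_one.symm
      rw [e3, ← lp_add, mul_lp, mul_lp, rd_natCast, map_ofNat]
      congr 1
      push_cast
      have h4ne : (4 : ZMod p) ≠ 0 := by
        have : (4 : ZMod p) = 2 * 2 := by norm_num
        rw [this]
        exact mul_ne_zero h2ne h2ne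
      field_simp
      ring
    rw [e2]
    set L := lp p (2 * (c : ZMod p) * ∑ k ∈ Finset.Ioc c (2 * c), (k : ZMod p)⁻¹) with hL
    have hpp : (p : ZMod (p ^ 2)) * p = 0 := by rw [← lp_one, lp_mul_lp]
    have hpL : (p : ZMod (p ^ 2)) * L = 0 := by rw [← lp_one, hL, lp_mul_lp]
    linear_combination ((-1) ^ c * (((2 * c).choose c : ℕ) : ZMod (p ^ 2))) * (hpp + hpL)
  · intro i hi
    have e : c + q * (2 * c - i) = 2 * c * p - (c + q * i) := by
      obtain ⟨d, hd⟩ : ∃ d, c = i + d := ⟨c - i, by omega⟩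
      have e4 : 2 * c - i = i + 2 * d := by omega
      rw [e4]
      have e5 : 2 * c * p = (c + q * (i + 2 * d)) + (c + q * i) := by
        rw [hq, hd]
        ring
      omega
    have hle : c + q * i ≤ 2 * c * p := by
      have e6 : 2 * c * p = (2 * c) * q + 2 * c := by rw [hq]; ring
      have e7 : q * i ≤ (2 * c) * q := by
        rw [mul_comm q i]
        exact Nat.mul_le_mul_right q (by omega)
      omega
    show (((2 * c * p).choose (c + q * (2 * c - i)) : ℕ) : ZMod (p ^ 2)) = _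
    rw [e, Nat.choose_symm hle]

end Pool.Agent.helper60.DA
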